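import Mathlib
import Pool.Agent.H317.GR.StmA

/-!
# Project GR, part A1: characters with finite image

`fin : S_FIN`: if every finite quotient of `G` is a quotient of `H` and `G` has finitely many
characters of degree `n` with finite image, then `H` has at least as many.
-/

set_option autoImplicit false

namespace Pool.Agent.H379.GR

open Pool.Agent.H317.GR Matrix

theorem fin : S_FIN := by
  intro G H _ _ hQ n K _ hfin
  classical
  have hex : ∀ χ : finChars G n K, ∃ ρ : G →* GL (Fin n) K,
      Finite ρ.range ∧ ∀ g, χ.1 g = (ρ g).val.trace := fun χ => χ.2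
  choose r hr1 hr2 using hex
  have : Finite (finChars G n K) := hfin
  let N : Subgroup G := ⨅ χ : finChars G n K, (r χ).ker
  have hN : N.Normal := Subgroup.normal_iInf_normal (fun χ => inferInstance)
  have hfi : N.FiniteIndex := by
    have : ∀ χ : finChars G n K, ((r χ).ker).FiniteIndex := by
      intro χ
      have := hr1 χ
      exact Subgroup.finiteIndex_ker (r χ)
    exact Subgroup.finiteIndex_iInf (f := fun χ : finChars G n K => (r χ).ker) this
  have : Finite (G ⧸ N) := Subgroup.finite_quotient_of_finiteIndex
  obtain ⟨π, hπ⟩ := hQ (G ⧸ N) ⟨QuotientGroup.mk' N, QuotientGroup.mk'_surjective N⟩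
  have hle : ∀ χ : finChars G n K, N ≤ (r χ).ker := fun χ => iInf_le _ χ
  let rb : finChars G n K → (G ⧸ N →* GL (Fin n) K) := fun χ =>
    QuotientGroup.lift N (r χ) (fun x hx => MonoidHom.mem_ker.mp (hle χ hx))
  have hrb : ∀ (χ : finChars G n K) (g : G), rb χ (QuotientGroup.mk' N g) = r χ g := fun χ g => rfl
  have hmem : ∀ χ : finChars G n K, (fun h : H => (rb χ (π h)).val.trace) ∈ finChars H n K := by
    intro χ
    refine ⟨(rb χ).comp π, ?_, fun h => rfl⟩
    have hfr : Finite (rb χ).range :=
      Finite.of_surjective (rb χ).rangeRestrict (rb χ).rangeRestrict_surjective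
    refine Finite.of_injective (β := (rb χ).range)
      (fun y => ⟨y.1, ?_⟩) ?_
    · obtain ⟨h, hh⟩ := y.2
      exact ⟨π h, hh⟩
    · intro y z hyz
      exact Subtype.ext (congrArg (fun w : (rb χ).range => w.1) hyz)
  let F : finChars G n K → finChars H n K := fun χ => ⟨fun h => (rb χ (π h)).val.trace, hmem χ⟩
  have hF : Function.Injective F := by
    intro χ χ' h
    apply Subtype.ext
    funext g
    obtain ⟨y, hy⟩ := hπ (QuotientGroup.mk' N g)
    have h1 := congrFun (congrArg (fun w : finChars H n K => w.1) h) y
    change (rb χ (π y)).val.trace = (rb χ' (π y)).val.trace at h1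
    rw [hy, hrb, hrb] at h1
    rw [hr2 χ g, hr2 χ' g, h1]
  exact Function.Embedding.encard_le ⟨F, hF⟩

end Pool.Agent.H379.GR
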