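import Mathlib
import Pool.Agent.H317.GR.StmB

/-!
# Project GR, part B1: absolute irreducibility and field extensions

`aie : S_AIE`; also `span_eq_top` (the span of an absolutely irreducible representation) and
`functional_eq_trace`.
-/

set_option autoImplicit false

namespace Pool.Agent.H379.GR

open Pool.Agent.H317.GR Matrix

/-- every linear functional on matrices is a trace form -/
theorem functional_eq_trace {K : Type} [Field K] {n : ℕ}
    (f : Matrix (Fin n) (Fin n) K →ₗ[K] K) :
    ∃ X : Matrix (Fin n) (Fin n) K, ∀ Y, f Y = (X * Y).trace := by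
  refine ⟨Matrix.of fun i j => f (Matrix.single j i 1), fun Y => ?_⟩
  have h1 : ∀ i j : Fin n, f (Matrix.single i j (Y i j)) = f (Matrix.single i j 1) * Y i j := by
    intro i j
    have h2 : Matrix.single i j (Y i j) = Y i j • Matrix.single i j (1 : K) := by
      rw [Matrix.smul_single, smul_eq_mul, mul_one]
    rw [h2, map_smul, smul_eq_mul, mul_comm]
  have h3 : f Y = ∑ i, ∑ j, f (Matrix.single i j 1) * Y i j := by
    conv_lhs => rw [Matrix.matrix_eq_sum_single Y]
    rw [map_sum]
    refine Finset.sum_congr rfl fun i _ => ?_
    rw [map_sum]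
    exact Finset.sum_congr rfl fun j _ => h1 i j
  rw [h3, Finset.sum_comm]
  simp only [Matrix.trace, Matrix.diag_apply, Matrix.mul_apply, Matrix.of_apply]

/-- the span of an absolutely irreducible representation is everything -/
theorem span_eq_top {K : Type} [Field K] {G : Type} [Group G] {n : ℕ} (ρ : G →* GL (Fin n) K)
    (h : AI ρ) : Submodule.span K (Set.range fun g => (ρ g).val) = ⊤ := by
  by_contra hne
  obtain ⟨f, hf0, hf⟩ := Submodule.exists_le_ker_of_lt_top _ (lt_top_iff_ne_top.mpr hne)
  obtain ⟨X, hX⟩ := functional_eq_trace f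
  have h0 : X = 0 := by
    apply h
    intro g
    rw [← hX]
    exact LinearMap.mem_ker.mp (hf (Submodule.subset_span ⟨g, rfl⟩))
  apply hf0
  apply LinearMap.ext
  intro Y
  rw [hX, h0]
  simp

theorem aie : S_AIE := by
  intro K L _ _ j G _ n ρ hρ X hX
  let S : Submodule K (Matrix (Fin n) (Fin n) K) :=
    { carrier := {Y | (X * Y.map j).trace = 0}
      add_mem' := by
        intro Y Z hY hZ
        change (X * (Y + Z).map j).trace = 0
        have e : (Y + Z).map j = Y.map j + Z.map j := by
          ext a b; simp
        rw [e, Matrix.mul_add, Matrix.trace_add, hY, hZ, add_zero]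
      zero_mem' := by
        change (X * (0 : Matrix (Fin n) (Fin n) K).map j).trace = 0
        have e : (0 : Matrix (Fin n) (Fin n) K).map j = 0 := by
          ext a b; simp
        rw [e, Matrix.mul_zero, Matrix.trace_zero]
      smul_mem' := by
        intro c Y hY
        change (X * (c • Y).map j).trace = 0
        have e : (c • Y).map j = j c • Y.map j := by
          ext a b; simp
        rw [e, Matrix.mul_smul, Matrix.trace_smul, hY, smul_zero] }
  have hS : S = ⊤ := by
    rw [eq_top_iff, ← span_eq_top ρ hρ, Submodule.span_le]
    rintro _ ⟨g, rfl⟩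
    exact hX g
  ext a b
  have hab : Matrix.single b a (1 : K) ∈ S := by rw [hS]; exact Submodule.mem_top
  have h1 : (X * (Matrix.single b a (1 : K)).map j).trace = 0 := hab
  have e : (Matrix.single b a (1 : K)).map j = Matrix.single b a (1 : L) := by
    rw [Matrix.map_single, map_one]
  rw [e, Matrix.trace_mul_comm, Matrix.trace_single_mul] at h1
  simpa using h1

end Pool.Agent.H379.GR
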